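import Pool.Agent.Run7.h921.FP.EX

/-!
Pieces CM, CMD (helper921) of `MP_de94ef_pr`: change of measure on finitely many edges.
-/

set_option autoImplicit false
open MeasureTheory ProbabilityTheory Filter Set
open scoped ENNReal Pointwise Topology

namespace Run7.h921.FP

open Pool.Agent.N662.FP Run7.h943.FP

namespace CMaux

/-- the density of `c x`, `x ~ Exp(1)`, with respect to `Exp(1)` -/
noncomputable def rho (c x : ℝ) : ℝ≥0∞ := ENNReal.ofReal (c⁻¹ * Real.exp (x - x / c))

theorem meas_rho (c : ℝ) : Measurable (rho c) := by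
  unfold rho
  fun_prop

instance instExp : IsProbabilityMeasure (expMeasure 1) := isProbabilityMeasure_expMeasure one_pos

theorem exp_def : expMeasure 1 = volume.withDensity (exponentialPDF 1) := rfl

theorem meas_pdf (r : ℝ) : Measurable (exponentialPDF r) :=
  (measurable_exponentialPDFReal r).ennreal_ofReal

theorem map_exp (c : ℝ) (hc : 0 < c) :
    (expMeasure 1).map (fun x => c * x) = (expMeasure 1).withDensity (rho c) := by
  have hm1 : Measurable fun x : ℝ => c * x := by fun_prop
  ext A hA
  have hA' : MeasurableSet ((fun x : ℝ => c * x) ⁻¹' A) := hm1 hA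
  rw [Measure.map_apply hm1 hA, withDensity_apply _ hA, exp_def, withDensity_apply _ hA',
    restrict_withDensity hA, lintegral_withDensity_eq_lintegral_mul _ (meas_pdf 1) (meas_rho c),
    ← lintegral_indicator hA, ← lintegral_indicator hA']
  have hf : Measurable (A.indicator fun y => exponentialPDF 1 (y / c)) :=
    ((meas_pdf 1).comp (by fun_prop)).indicator hA
  have e1 : ∀ x : ℝ, ((fun x : ℝ => c * x) ⁻¹' A).indicator (fun a => exponentialPDF 1 a) x =
      A.indicator (fun y => exponentialPDF 1 (y / c)) (c * x) := by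
    intro x
    by_cases hx : c * x ∈ A
    · rw [indicator_of_mem hx, indicator_of_mem (show x ∈ (fun x : ℝ => c * x) ⁻¹' A from hx),
        mul_div_cancel_left₀ _ hc.ne']
    · rw [indicator_of_notMem hx, indicator_of_notMem (show x ∉ (fun x : ℝ => c * x) ⁻¹' A from hx)]
  simp only [e1]
  rw [← lintegral_map hf hm1, Real.map_volume_mul_left hc.ne', lintegral_smul_measure,
    smul_eq_mul, ← lintegral_const_mul' _ _ ENNReal.ofReal_ne_top]
  refine lintegral_congr fun y => ?_
  by_cases hy : y ∈ A
  · rw [indicator_of_mem hy, indicator_of_mem hy]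
    simp only [Pi.mul_apply]
    unfold rho
    rcases lt_or_ge y 0 with h | h
    · rw [exponentialPDF_of_neg h, exponentialPDF_of_neg (div_neg_of_neg_of_pos h hc), mul_zero,
        zero_mul]
    · rw [exponentialPDF_of_nonneg h, exponentialPDF_of_nonneg (div_nonneg h hc.le),
        ← ENNReal.ofReal_mul (by positivity), ← ENNReal.ofReal_mul (by positivity)]
      congr 1
      rw [abs_of_pos (inv_pos.2 hc), one_mul, one_mul, one_mul, one_mul, mul_left_comm,
        ← Real.exp_add]
      congr 2
      ring
  · rw [indicator_of_notMem hy, indicator_of_notMem hy, mul_zero]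

theorem int_rho (c : ℝ) (hc : 0 < c) : ∫⁻ x, rho c x ∂(expMeasure 1) = 1 := by
  have h : (expMeasure 1).map (fun x => c * x) univ = 1 := by
    rw [Measure.map_apply (by fun_prop) MeasurableSet.univ, preimage_univ, measure_univ]
  rw [map_exp c hc, withDensity_apply _ MeasurableSet.univ, Measure.restrict_univ] at h
  exact h

theorem int_rho_sq (c : ℝ) (hc : 0 < c) (hc2 : c < 2) :
    ∫⁻ x, rho c x * rho c x ∂(expMeasure 1) = ENNReal.ofReal (1 / (c * (2 - c))) := by
  have h2 : 0 < 2 - c := by linarith
  have hr : 0 < (2 - c) / c := div_pos h2 hc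
  have hsq : Measurable fun x => rho c x * rho c x := (meas_rho c).mul (meas_rho c)
  rw [exp_def, lintegral_withDensity_eq_lintegral_mul _ (meas_pdf 1) hsq]
  have e : ∀ x : ℝ, (exponentialPDF 1 * fun x => rho c x * rho c x) x =
      ENNReal.ofReal (1 / (c * (2 - c))) * exponentialPDF ((2 - c) / c) x := by
    intro x
    simp only [Pi.mul_apply]
    unfold rho
    rcases lt_or_ge x 0 with h | h
    · rw [exponentialPDF_of_neg h, exponentialPDF_of_neg h, mul_zero, zero_mul]
    · rw [exponentialPDF_of_nonneg h, exponentialPDF_of_nonneg h,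
        ← ENNReal.ofReal_mul (by positivity), ← ENNReal.ofReal_mul (by positivity),
        ← ENNReal.ofReal_mul (by positivity)]
      congr 1
      have e2 : Real.exp (-(1 * x)) * (c⁻¹ * Real.exp (x - x / c) * (c⁻¹ * Real.exp (x - x / c))) =
          c⁻¹ * c⁻¹ * (Real.exp (-(1 * x)) * Real.exp (x - x / c) * Real.exp (x - x / c)) := by
        ring
      rw [one_mul (Real.exp _), e2, ← Real.exp_add, ← Real.exp_add]
      have e3 : -(1 * x) + (x - x / c) + (x - x / c) = -((2 - c) / c * x) := by
        field_simp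
        ring
      rw [e3]
      field_simp
  rw [lintegral_congr e, lintegral_const_mul' _ _ ENNReal.ofReal_ne_top,
    lintegral_exponentialPDF_eq_one hr, mul_one]

/-- the edges -/
abbrev ED := Sym2 (ℤ × ℤ)

/-- the product law -/
noncomputable abbrev PP : Measure (ED → ℝ) := Measure.infinitePi (fun _ : ED => expMeasure 1)

theorem prod_int (I : Finset ED) (g : ED → ℝ → ℝ≥0∞) (hg : ∀ e, Measurable (g e)) :
    ∫⁻ x, ∏ e ∈ I, g e (x e) ∂PP = ∏ e ∈ I, ∫⁻ a, g e a ∂(expMeasure 1) := by
  have h0 := lintegral_prod_eq_prod_lintegral_of_indepFun (μ := PP) I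
    (fun (e : ED) (x : ED → ℝ) => g e (x e))
    (iIndepFun_infinitePi hg) (fun e => (hg e).comp (measurable_pi_apply e))
  rw [h0]
  refine Finset.prod_congr rfl fun e _ => ?_
  have h := Measure.infinitePi_map_eval (fun _ : ED => expMeasure 1) e
  have h2 : ∫⁻ a, g e a ∂((PP).map (fun x => x e)) = ∫⁻ x, g e (x e) ∂PP :=
    lintegral_map (hg e) (measurable_pi_apply e)
  rw [← h2, h]

/-- the density on `F` -/
noncomputable def RR (F : Finset ED) (c : ℝ) (x : ED → ℝ) : ℝ≥0∞ := ∏ e ∈ F, rho c (x e)

theorem meas_RR (F : Finset ED) (c : ℝ) : Measurable (RR F c) := by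
  unfold RR
  exact Finset.measurable_prod _ fun e _ => (meas_rho c).comp (measurable_pi_apply e)

theorem meas_sc (F : Finset ED) (c : ℝ) : Measurable (sc F c) := by
  refine measurable_pi_iff.2 fun e => ?_
  unfold sc
  split_ifs <;> fun_prop

open Classical in
theorem law_sc (F : Finset ED) (c : ℝ) (hc : 0 < c) :
    (PP).map (sc F c) = (PP).withDensity (RR F c) := by
  have e0 : sc F c = fun x e => (fun (e : ED) (a : ℝ) => if e ∈ F then c * a else a) e (x e) := by
    funext x e
    rfl
  have hf : ∀ e : ED, Measurable ((fun (e : ED) (a : ℝ) => if e ∈ F then c * a else a) e) := by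
    intro e
    by_cases he : e ∈ F
    · simp only [he, if_true]; fun_prop
    · simp only [he, if_false]; fun_prop
  rw [e0, Measure.infinitePi_map_pi _ hf]
  have : ∀ e : ED, IsProbabilityMeasure
      ((expMeasure 1).map ((fun (e : ED) (a : ℝ) => if e ∈ F then c * a else a) e)) :=
    fun e => Measure.isProbabilityMeasure_map (hf e).aemeasurable
  symm
  refine Measure.eq_infinitePi _ fun s t ht => ?_
  have hmeas : MeasurableSet (Set.pi (s : Set ED) t) :=
    MeasurableSet.pi s.countable_toSet fun _ _ => ht _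
  rw [withDensity_apply _ hmeas, ← lintegral_indicator hmeas]
  set g : ED → ℝ → ℝ≥0∞ := fun e a =>
    (if e ∈ s then (t e).indicator (fun _ => (1 : ℝ≥0∞)) a else 1) *
      (if e ∈ F then rho c a else 1) with hg
  have hgm : ∀ e, Measurable (g e) := by
    intro e
    simp only [hg]
    refine Measurable.mul ?_ ?_
    · split_ifs
      · exact measurable_const.indicator (ht e)
      · exact measurable_const
    · split_ifs
      · exact meas_rho c
      · exact measurable_const
  have e1 : ∀ x : ED → ℝ, (Set.pi (s : Set ED) t).indicator (fun x => RR F c x) x =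
      ∏ e ∈ s ∪ F, g e (x e) := by
    intro x
    simp only [hg]
    rw [Finset.prod_mul_distrib]
    have a1 : ∏ e ∈ s ∪ F, (if e ∈ F then rho c (x e) else 1) = RR F c x := by
      unfold RR
      rw [Finset.prod_ite_mem, Finset.inter_eq_right.2 Finset.subset_union_right]
    have a2 : ∏ e ∈ s ∪ F, (if e ∈ s then (t e).indicator (fun _ => (1 : ℝ≥0∞)) (x e) else 1) =
        (Set.pi (s : Set ED) t).indicator (fun _ => (1 : ℝ≥0∞)) x := by
      rw [Finset.prod_ite_mem, Finset.inter_eq_right.2 Finset.subset_union_left]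
      by_cases hx : x ∈ Set.pi (s : Set ED) t
      · rw [indicator_of_mem hx]
        refine Finset.prod_eq_one fun e he => ?_
        rw [indicator_of_mem (hx e he)]
      · rw [indicator_of_notMem hx]
        simp only [Set.mem_pi, Finset.mem_coe, not_forall] at hx
        obtain ⟨e, he, hxe⟩ := hx
        exact Finset.prod_eq_zero he (indicator_of_notMem hxe _)
    rw [a1, a2]
    by_cases hx : x ∈ Set.pi (s : Set ED) t
    · rw [indicator_of_mem hx, indicator_of_mem hx, one_mul]
    · rw [indicator_of_notMem hx, indicator_of_notMem hx, zero_mul]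
  rw [lintegral_congr e1, prod_int _ g hgm]
  have hone : ∀ e, e ∉ s → ∫⁻ a, g e a ∂(expMeasure 1) = 1 := by
    intro e he
    simp only [hg, he, if_false, one_mul]
    by_cases heF : e ∈ F
    · simp only [heF, if_true]
      exact int_rho c hc
    · simp only [heF, if_false, lintegral_const, measure_univ, mul_one]
  have hss : ∀ e ∈ s, ∫⁻ a, g e a ∂(expMeasure 1) =
      ((expMeasure 1).map ((fun (e : ED) (a : ℝ) => if e ∈ F then c * a else a) e)) (t e) := by
    intro e he
    simp only [hg, he, if_true]
    by_cases heF : e ∈ F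
    · simp only [heF, if_true]
      rw [map_exp c hc, withDensity_apply _ (ht e), ← lintegral_indicator (ht e)]
      refine lintegral_congr fun a => ?_
      by_cases ha : a ∈ t e
      · rw [indicator_of_mem ha, indicator_of_mem ha, one_mul]
      · rw [indicator_of_notMem ha, indicator_of_notMem ha, zero_mul]
    · simp only [heF, if_false, mul_one]
      rw [lintegral_indicator (ht e), setLIntegral_const, one_mul]
      simp only [Measure.map_id']
  rw [← Finset.prod_subset (Finset.subset_union_left : s ⊆ s ∪ F) (fun e _ he => hone e he)]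
  exact Finset.prod_congr rfl hss

theorem law {Ω : Type} [MeasureSpace Ω] [IsProbabilityMeasure (volume : Measure Ω)]
    (X : ED → Ω → ℝ) (hX : Iid X) : Measure.map (env X) (volume : Measure Ω) = PP := by
  have h4 := (iIndepFun_iff_map_fun_eq_infinitePi_map hX.meas).1 hX.ind
  have e : env X = fun ω e => X e ω := rfl
  rw [e, h4]
  congr 1
  funext e
  exact hX.law _

theorem meas_env {Ω : Type} [MeasureSpace Ω] (X : ED → Ω → ℝ) (hX : Iid X) : Measurable (env X) :=
  measurable_pi_iff.2 fun e => hX.meas e

end CMaux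

open CMaux

/-- CM: change of measure -/
theorem t_CM : S_CM := by
  intro Ω _ _ X hX F c hc hc2 B hB
  have hlaw := law X hX
  have hme := meas_env X hX
  have h2 : 0 < 2 - c := by linarith
  have e1 : (volume : Measure Ω) {ω | env X ω ∈ B} = PP B := by
    rw [← hlaw, Measure.map_apply hme hB]
    rfl
  have e2 : (volume : Measure Ω) {ω | sc F c (env X ω) ∈ B} = ∫⁻ x in B, RR F c x ∂PP := by
    rw [← withDensity_apply _ hB, ← law_sc F c hc, Measure.map_apply (meas_sc F c) hB, ← hlaw,
      Measure.map_apply hme (meas_sc F c hB)]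
    rfl
  have e3 : ∫⁻ x, RR F c x ^ (2 : ℝ) ∂PP = ENNReal.ofReal ((1 / (c * (2 - c))) ^ F.card) := by
    have e4 : ∀ x : ED → ℝ, RR F c x ^ (2 : ℝ) =
        ∏ e ∈ F, (fun (_ : ED) (a : ℝ) => rho c a * rho c a) e (x e) := by
      intro x
      rw [ENNReal.rpow_two]
      unfold RR
      rw [← Finset.prod_pow]
      exact Finset.prod_congr rfl fun e _ => sq _
    have hsq : Measurable fun a => rho c a * rho c a := (meas_rho c).mul (meas_rho c)
    rw [lintegral_congr e4, prod_int F (fun (_ : ED) (a : ℝ) => rho c a * rho c a) (fun _ => hsq)]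
    simp only [int_rho_sq c hc hc2, Finset.prod_const]
    rw [ENNReal.ofReal_pow (by positivity)]
  have hcs : ∫⁻ x in B, RR F c x ∂PP ≤
      (PP B) ^ (1 / 2 : ℝ) * (ENNReal.ofReal ((1 / (c * (2 - c))) ^ F.card)) ^ (1 / 2 : ℝ) := by
    have h := ENNReal.lintegral_mul_le_Lp_mul_Lq PP Real.HolderConjugate.two_two
      (f := B.indicator fun _ => (1 : ℝ≥0∞)) (g := RR F c)
      (measurable_const.indicator hB).aemeasurable (meas_RR F c).aemeasurable
    rw [e3] at h
    have h5 : ∫⁻ x, (B.indicator (fun _ => (1 : ℝ≥0∞)) x) ^ (2 : ℝ) ∂PP = PP B := by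
      rw [← lintegral_indicator_one hB]
      refine lintegral_congr fun x => ?_
      by_cases hx : x ∈ B
      · rw [indicator_of_mem hx, indicator_of_mem hx]; simp
      · rw [indicator_of_notMem hx, indicator_of_notMem hx]; simp
    rw [h5] at h
    refine le_trans (le_of_eq ?_) h
    rw [← lintegral_indicator hB]
    refine lintegral_congr fun x => ?_
    simp only [Pi.mul_apply]
    by_cases hx : x ∈ B
    · rw [indicator_of_mem hx, indicator_of_mem hx, one_mul]
    · rw [indicator_of_notMem hx, indicator_of_notMem hx, zero_mul]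
  have hfin : ((volume : Measure Ω) {ω | sc F c (env X ω) ∈ B}) ^ 2 ≤
      ENNReal.ofReal ((1 / (c * (2 - c))) ^ F.card) * (volume : Measure Ω) {ω | env X ω ∈ B} := by
    rw [e1, e2]
    calc (∫⁻ x in B, RR F c x ∂PP) ^ 2 ≤
        ((PP B) ^ (1 / 2 : ℝ) * (ENNReal.ofReal ((1 / (c * (2 - c))) ^ F.card)) ^ (1 / 2 : ℝ)) ^ 2 :=
          pow_le_pow_left' hcs 2
      _ = ENNReal.ofReal ((1 / (c * (2 - c))) ^ F.card) * PP B := by
          rw [mul_pow, ← ENNReal.rpow_natCast, ← ENNReal.rpow_natCast, ← ENNReal.rpow_mul,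
            ← ENNReal.rpow_mul]
          norm_num
          rw [mul_comm]
  have h6 := ENNReal.toReal_mono (ENNReal.mul_ne_top ENNReal.ofReal_ne_top (measure_ne_top _ _)) hfin
  rw [ENNReal.toReal_pow, ENNReal.toReal_mul, ENNReal.toReal_ofReal (by positivity)] at h6
  exact h6

/-- CMD: the same for the passage times -/
theorem t_CMD (h : S_CM) : S_CMD := by
  intro Ω _ _ X hX F c hc hc2 v t
  have hae := cAE Ω X hX
  have hm := cME 0 v
  set Φ : (Sym2 (ℤ × ℤ) → ℝ) → ℝ := fun x => D (fun e => max (x e) 0) 0 v with hΦ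
  have hΦe : ∀ x : Sym2 (ℤ × ℤ) → ℝ, (∀ e, 0 ≤ x e) → Φ x = D x 0 v := by
    intro x hx
    have : (fun e => max (x e) 0) = x := by
      funext e
      exact max_eq_left (hx e)
    simp only [hΦ]
    rw [this]
  have hB1 : MeasurableSet {x | t ≤ Φ x} := measurableSet_le measurable_const hm
  have hB2 : MeasurableSet {x | Φ x < t} := measurableSet_lt hm measurable_const
  have a1 : (volume : Measure Ω).real {ω | t ≤ D (sc F c (env X ω)) 0 v} =
      (volume : Measure Ω).real {ω | sc F c (env X ω) ∈ {x | t ≤ Φ x}} := by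
    refine measureReal_congr ?_
    filter_upwards [hae] with ω hω
    show (t ≤ D (sc F c (env X ω)) 0 v) = (t ≤ Φ (sc F c (env X ω)))
    rw [hΦe _ (sc_nonneg hc.le hω)]
  have a2 : (volume : Measure Ω).real {ω | t ≤ D (env X ω) 0 v} =
      (volume : Measure Ω).real {ω | env X ω ∈ {x | t ≤ Φ x}} := by
    refine measureReal_congr ?_
    filter_upwards [hae] with ω hω
    show (t ≤ D (env X ω) 0 v) = (t ≤ Φ (env X ω))
    rw [hΦe _ hω]
  have a3 : (volume : Measure Ω).real {ω | D (sc F c (env X ω)) 0 v < t} =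
      (volume : Measure Ω).real {ω | sc F c (env X ω) ∈ {x | Φ x < t}} := by
    refine measureReal_congr ?_
    filter_upwards [hae] with ω hω
    show (D (sc F c (env X ω)) 0 v < t) = (Φ (sc F c (env X ω)) < t)
    rw [hΦe _ (sc_nonneg hc.le hω)]
  have a4 : (volume : Measure Ω).real {ω | D (env X ω) 0 v < t} =
      (volume : Measure Ω).real {ω | env X ω ∈ {x | Φ x < t}} := by
    refine measureReal_congr ?_
    filter_upwards [hae] with ω hω
    show (D (env X ω) 0 v < t) = (Φ (env X ω) < t)
    rw [hΦe _ hω]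
  rw [a1, a2, a3, a4]
  exact ⟨h Ω X hX F c hc hc2 _ hB1, h Ω X hX F c hc hc2 _ hB2⟩

end Run7.h921.FP
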