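import Pool.Agent.Run7.h943.FP.Stm

/-!
Piece EX (helper921) of `MP_de94ef_pr`: first exit of a path.
-/

set_option autoImplicit false
open MeasureTheory ProbabilityTheory Filter Set
open scoped ENNReal Pointwise Topology

namespace Run7.h921.FP

open Pool.Agent.N662.FP Run7.h943.FP

/-- a piece of a path bounds the passage time between its end points -/
theorem sub_path (x : Sym2 (ℤ × ℤ) → ℝ) (hx : ∀ e, 0 ≤ x e) (n : ℕ) (p : ℕ → ℤ × ℤ)
    (hp : ∀ i < n, |(p (i + 1)).1 - (p i).1| + |(p (i + 1)).2 - (p i).2| = 1)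
    (i j : ℕ) (hij : i ≤ j) (hj : j ≤ n) :
    D x (p i) (p j) ≤ ∑ k ∈ Finset.Ico i j, x s(p k, p (k + 1)) := by
  refine csInf_le (cGE x hx (p i) (p j)).2.1 ?_
  refine ⟨j - i, fun k => p (i + k), by simp, by
    show p (i + (j - i)) = p j
    congr 1
    omega, ?_, ?_⟩
  · intro k hk
    exact hp (i + k) (by omega)
  · rw [Finset.sum_Ico_eq_sum_range]
    refine Finset.sum_congr rfl fun k _ => ?_
    rfl

theorem sc_mem {F : Finset (Sym2 (ℤ × ℤ))} {c : ℝ} {x : Sym2 (ℤ × ℤ) → ℝ} {e : Sym2 (ℤ × ℤ)}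
    (he : e ∈ F) : sc F c x e = c * x e := by
  unfold sc
  rw [if_pos he]

theorem sc_nonneg {F : Finset (Sym2 (ℤ × ℤ))} {c : ℝ} (hc : 0 ≤ c) {x : Sym2 (ℤ × ℤ) → ℝ}
    (hx : ∀ e, 0 ≤ x e) (e : Sym2 (ℤ × ℤ)) : 0 ≤ sc F c x e := by
  unfold sc
  split_ifs
  · exact mul_nonneg hc (hx e)
  · exact hx e

theorem le_sc {F : Finset (Sym2 (ℤ × ℤ))} {c : ℝ} (hc : 1 ≤ c) {x : Sym2 (ℤ × ℤ) → ℝ}
    (hx : ∀ e, 0 ≤ x e) (e : Sym2 (ℤ × ℤ)) : x e ≤ sc F c x e := by
  unfold sc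
  split_ifs
  · exact le_mul_of_one_le_left (hx e) hc
  · exact le_rfl

/-- either the path stays in `K` or it passes through a first vertex outside -/
theorem exit (K : Finset (ℤ × ℤ)) (n : ℕ) (p : ℕ → ℤ × ℤ) (h0 : p 0 ∈ K) :
    (∀ i ≤ n, p i ∈ K) ∨ ∃ i, i < n ∧ (∀ j ≤ i, p j ∈ K) ∧ p (i + 1) ∉ K := by
  classical
  by_cases h : ∀ i ≤ n, p i ∈ K
  · exact Or.inl h
  · right
    push Not at h
    have hex : ∃ i, i ≤ n ∧ p i ∉ K := h
    set i := Nat.find hex with hi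
    have h1 : i ≤ n ∧ p i ∉ K := Nat.find_spec hex
    have h2 : ∀ j < i, p j ∈ K := by
      intro j hj
      by_contra hK
      exact Nat.find_min hex hj ⟨by omega, hK⟩
    have hi0 : i ≠ 0 := by
      intro h3
      exact h1.2 (by rw [h3]; exact h0)
    refine ⟨i - 1, by omega, fun j hj => h2 j (by omega), ?_⟩
    have : i - 1 + 1 = i := by omega
    rw [this]
    exact h1.2

theorem t_EXI : S_EXI := by
  intro x hx K F c t u hc h0 hF hex
  have hc0 : 0 ≤ c := by linarith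
  have hsc : ∀ e, 0 ≤ sc F c x e := sc_nonneg hc0 hx
  refine le_csInf (cGE (sc F c x) hsc 0 u).1 ?_
  rintro s ⟨n, p, hp0, hpn, hp, rfl⟩
  rcases exit K n p (by rw [hp0]; exact h0) with h | ⟨i, hi, hK, hz⟩
  · refine (min_le_left _ _).trans ?_
    have e : ∑ k ∈ Finset.range n, sc F c x s(p k, p (k + 1)) =
        c * ∑ k ∈ Finset.range n, x s(p k, p (k + 1)) := by
      rw [Finset.mul_sum]
      refine Finset.sum_congr rfl fun k hk => ?_
      rw [Finset.mem_range] at hk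
      exact sc_mem (hF _ (h k hk.le) _ (h (k + 1) hk) (hp k hk))
    rw [e]
    refine mul_le_mul_of_nonneg_left ?_ hc0
    exact csInf_le (cGE x hx 0 u).2.1 ⟨n, p, hp0, hpn, hp, rfl⟩
  · refine (min_le_right _ _).trans ?_
    have h1 := hex (p i) (hK i le_rfl) (p (i + 1)) hz (hp i hi)
    have h2 := sub_path x hx n p hp 0 (i + 1) (by omega) hi
    have h3 := sub_path x hx n p hp (i + 1) n hi le_rfl
    rw [hp0] at h2
    rw [hpn] at h3
    have h4 : ∑ k ∈ Finset.Ico 0 (i + 1), x s(p k, p (k + 1)) +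
        ∑ k ∈ Finset.Ico (i + 1) n, x s(p k, p (k + 1)) =
        ∑ k ∈ Finset.range n, x s(p k, p (k + 1)) := by
      rw [Finset.sum_Ico_consecutive _ (by omega) (by omega), Finset.range_eq_Ico]
    have h5 : ∑ k ∈ Finset.range n, x s(p k, p (k + 1)) ≤
        ∑ k ∈ Finset.range n, sc F c x s(p k, p (k + 1)) :=
      Finset.sum_le_sum fun k _ => le_sc hc hx _
    linarith

theorem t_EXO : S_EXO := by
  intro x hx K F c t u hc h0 hF hex hlt
  have hsc : ∀ e, 0 ≤ sc F c x e := sc_nonneg hc.le hx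
  obtain ⟨s, ⟨n, p, hp0, hpn, hp, rfl⟩, hs⟩ := exists_lt_of_csInf_lt (cGE x hx 0 u).1 hlt
  rcases exit K n p (by rw [hp0]; exact h0) with h | ⟨i, hi, hK, hz⟩
  · have e : ∑ k ∈ Finset.range n, sc F c x s(p k, p (k + 1)) =
        c * ∑ k ∈ Finset.range n, x s(p k, p (k + 1)) := by
      rw [Finset.mul_sum]
      refine Finset.sum_congr rfl fun k hk => ?_
      rw [Finset.mem_range] at hk
      exact sc_mem (hF _ (h k hk.le) _ (h (k + 1) hk) (hp k hk))
    have h1 : D (sc F c x) 0 u ≤ ∑ k ∈ Finset.range n, sc F c x s(p k, p (k + 1)) :=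
      csInf_le (cGE (sc F c x) hsc 0 u).2.1 ⟨n, p, hp0, hpn, hp, rfl⟩
    rw [e] at h1
    exact h1.trans_lt (mul_lt_mul_of_pos_left hs hc)
  · exfalso
    have h1 := hex (p i) (hK i le_rfl) (p (i + 1)) hz (hp i hi)
    have h2 := sub_path x hx n p hp 0 (i + 1) (by omega) hi
    have h3 := sub_path x hx n p hp (i + 1) n hi le_rfl
    rw [hp0] at h2
    rw [hpn] at h3
    have h4 : ∑ k ∈ Finset.Ico 0 (i + 1), x s(p k, p (k + 1)) +
        ∑ k ∈ Finset.Ico (i + 1) n, x s(p k, p (k + 1)) =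
        ∑ k ∈ Finset.range n, x s(p k, p (k + 1)) := by
      rw [Finset.sum_Ico_consecutive _ (by omega) (by omega), Finset.range_eq_Ico]
    linarith

end Run7.h921.FP
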