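import Pool.Agent.Run7.h921.FP.EX

/-!
Piece SPD (helper921) of `MP_de94ef_pr`: splitting a path in `M` parts.
-/

set_option autoImplicit false
open MeasureTheory ProbabilityTheory Filter Set
open scoped ENNReal Pointwise Topology

namespace Run7.h921.FP

open Pool.Agent.N662.FP Run7.h943.FP

theorem al_step (y : ℝ × ℝ) (hy : y.1 ^ 2 + y.2 ^ 2 = 1) (a b : ℤ × ℤ)
    (h : |b.1 - a.1| + |b.2 - a.2| = 1) : al y (em b) - al y (em a) ≤ 1 := by
  have h1 : |y.1| ≤ 1 := by
    rw [← sq_le_one_iff_abs_le_one]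
    nlinarith [sq_nonneg y.2]
  have h2 : |y.2| ≤ 1 := by
    rw [← sq_le_one_iff_abs_le_one]
    nlinarith [sq_nonneg y.1]
  have h3 : |((b.1 - a.1 : ℤ) : ℝ)| + |((b.2 - a.2 : ℤ) : ℝ)| = 1 := by
    exact_mod_cast h
  have e : al y (em b) - al y (em a) = ((b.1 - a.1 : ℤ) : ℝ) * y.1 + ((b.2 - a.2 : ℤ) : ℝ) * y.2 := by
    unfold al Pool.Agent.N662.FP.em
    push_cast
    ring
  rw [e]
  calc ((b.1 - a.1 : ℤ) : ℝ) * y.1 + ((b.2 - a.2 : ℤ) : ℝ) * y.2
      ≤ |((b.1 - a.1 : ℤ) : ℝ) * y.1| + |((b.2 - a.2 : ℤ) : ℝ) * y.2| :=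
        add_le_add (le_abs_self _) (le_abs_self _)
    _ = |((b.1 - a.1 : ℤ) : ℝ)| * |y.1| + |((b.2 - a.2 : ℤ) : ℝ)| * |y.2| := by
        rw [abs_mul, abs_mul]
    _ ≤ |((b.1 - a.1 : ℤ) : ℝ)| * 1 + |((b.2 - a.2 : ℤ) : ℝ)| * 1 := by
        gcongr
    _ = 1 := by rw [mul_one, mul_one, h3]

theorem mem_box (R : ℕ) (z : ℤ × ℤ) : z ∈ box R ↔ |z.1| ≤ R ∧ |z.2| ≤ R := by
  unfold box
  rw [Finset.mem_product, Finset.mem_Icc, Finset.mem_Icc, abs_le, abs_le]

theorem t_SPD : S_SPD := by
  intro x hx y hy M R n t Z hM hn hZ hD hout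
  obtain ⟨s, ⟨N, p, hp0, hpn, hp, rfl⟩, hs⟩ := exists_lt_of_csInf_lt (cGE x hx 0 Z).1 hD
  have hn0 : (0 : ℝ) < n := by linarith
  -- the path stays in the box
  have h0 : p 0 ∈ box R := by
    rw [hp0, mem_box]
    simp
  have hin : ∀ i ≤ N, p i ∈ box R := by
    rcases exit (box R) N p h0 with h | ⟨i, hi, hK, hz⟩
    · exact h
    · exfalso
      have h1 : p (i + 1) ∈ box (R + 1) := by
        have h2 := (mem_box R _).1 (hK i le_rfl)
        have h3 := hp i hi
        rw [mem_box]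
        push_cast
        have a1 := abs_nonneg ((p (i + 1)).1 - (p i).1)
        have a2 := abs_nonneg ((p (i + 1)).2 - (p i).2)
        have b1 : |(p (i + 1)).1| ≤ |(p i).1| + |(p (i + 1)).1 - (p i).1| := by
          have := abs_add_le (p i).1 ((p (i + 1)).1 - (p i).1)
          rwa [add_sub_cancel] at this
        have b2 : |(p (i + 1)).2| ≤ |(p i).2| + |(p (i + 1)).2 - (p i).2| := by
          have := abs_add_le (p i).2 ((p (i + 1)).2 - (p i).2)
          rwa [add_sub_cancel] at this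
        constructor <;> omega
      have h2 := hout _ h1 hz
      have h3 := sub_path x hx N p hp 0 (i + 1) (by omega) hi
      rw [hp0] at h3
      have h4 : ∑ k ∈ Finset.Ico 0 (i + 1), x s(p k, p (k + 1)) ≤
          ∑ k ∈ Finset.range N, x s(p k, p (k + 1)) := by
        rw [Finset.range_eq_Ico]
        exact Finset.sum_le_sum_of_subset_of_nonneg (Finset.Ico_subset_Ico le_rfl (by omega))
          (fun k _ _ => hx _)
      linarith
  -- the times
  classical
  have hex : ∀ i : ℕ, i ≤ M → ∃ j, j ≤ N ∧ (i : ℝ) * n ≤ al y (em (p j)) := by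
    intro i hi
    refine ⟨N, le_rfl, ?_⟩
    rw [hpn]
    refine le_trans ?_ hZ
    have : (i : ℝ) ≤ M := by exact_mod_cast hi
    exact mul_le_mul_of_nonneg_right this hn0.le
  let τ : ℕ → ℕ := fun i => if h : ∃ j, j ≤ N ∧ (i : ℝ) * n ≤ al y (em (p j)) then Nat.find h else 0
  have hτ : ∀ i ≤ M, τ i ≤ N ∧ (i : ℝ) * n ≤ al y (em (p (τ i))) := by
    intro i hi
    have h := hex i hi
    have e : τ i = Nat.find h := dif_pos h
    rw [e]
    exact Nat.find_spec h
  have hτmin : ∀ i ≤ M, ∀ j, j ≤ N → (i : ℝ) * n ≤ al y (em (p j)) → τ i ≤ j := by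
    intro i hi j hj hal
    have h := hex i hi
    have e : τ i = Nat.find h := dif_pos h
    rw [e]
    exact Nat.find_min' h ⟨hj, hal⟩
  have hτmono : ∀ i, i + 1 ≤ M → τ i ≤ τ (i + 1) := by
    intro i hi
    refine hτmin i (by omega) _ (hτ (i + 1) hi).1 ?_
    refine le_trans ?_ (hτ (i + 1) hi).2
    push_cast
    nlinarith
  have hτup : ∀ i ≤ M, al y (em (p (τ i))) ≤ i * n + 1 := by
    intro i hi
    rcases Nat.eq_zero_or_pos (τ i) with h | h
    · rw [h, hp0]
      have : al y (em 0) = 0 := by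
        unfold al Pool.Agent.N662.FP.em
        simp
      rw [this]
      positivity
    · have h1 : ¬ (i : ℝ) * n ≤ al y (em (p (τ i - 1))) := by
        intro h2
        have := hτmin i hi (τ i - 1) (by have := (hτ i hi).1; omega) h2
        omega
      push Not at h1
      have h2 : τ i - 1 < N := by
        have := (hτ i hi).1
        omega
      have h3 := al_step y hy _ _ (hp (τ i - 1) h2)
      have h4 : τ i - 1 + 1 = τ i := by omega
      rw [h4] at h3
      linarith
  -- one of the parts is short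
  have hM0 : (0 : ℝ) < M := by exact_mod_cast hM
  have hshort : ∃ i, i < M ∧ D x (p (τ i)) (p (τ (i + 1))) < t / M := by
    by_contra hno
    push Not at hno
    have h1 : ∀ j ≤ M, (j : ℝ) * (t / M) ≤ ∑ k ∈ Finset.Ico (τ 0) (τ j), x s(p k, p (k + 1)) := by
      intro j
      induction j with
      | zero => intro _; simp
      | succ j ih =>
        intro hj
        have h2 := ih (by omega)
        have h3 := hno j (by omega)
        have h4 := sub_path x hx N p hp (τ j) (τ (j + 1)) (hτmono j hj) (hτ (j + 1) hj).1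
        have h5 : τ 0 ≤ τ j := hτmin 0 (by omega) _ (hτ j (by omega)).1 (by
          have := (hτ j (by omega)).2
          have h6 : (0 : ℝ) ≤ (j : ℝ) * n := by positivity
          simp only [Nat.cast_zero, zero_mul]
          linarith)
        rw [← Finset.sum_Ico_consecutive _ h5 (hτmono j hj)]
        push_cast
        linarith
    have h2 := h1 M le_rfl
    rw [mul_div_cancel₀ _ hM0.ne'] at h2
    have h3 : ∑ k ∈ Finset.Ico (τ 0) (τ M), x s(p k, p (k + 1)) ≤
        ∑ k ∈ Finset.range N, x s(p k, p (k + 1)) := by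
      rw [Finset.range_eq_Ico]
      exact Finset.sum_le_sum_of_subset_of_nonneg
        (Finset.Ico_subset_Ico (Nat.zero_le _) (hτ M le_rfl).1) (fun k _ _ => hx _)
    linarith
  obtain ⟨i, hi, hlt⟩ := hshort
  have ha := hin (τ i) (hτ i hi.le).1
  have hb := hin (τ (i + 1)) (hτ (i + 1) hi).1
  refine ⟨p (τ i), ha, p (τ (i + 1)) - p (τ i), ?_, ?_, ?_⟩
  · rw [mem_box] at ha hb ⊢
    push_cast
    have b1 : |(p (τ (i + 1)) - p (τ i)).1| ≤ |(p (τ (i + 1))).1| + |(p (τ i)).1| := abs_sub _ _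
    have b2 : |(p (τ (i + 1)) - p (τ i)).2| ≤ |(p (τ (i + 1))).2| + |(p (τ i)).2| := abs_sub _ _
    constructor <;> omega
  · have h1 := (hτ (i + 1) hi).2
    have h2 := hτup i hi.le
    have e : al y (em (p (τ (i + 1)) - p (τ i))) =
        al y (em (p (τ (i + 1)))) - al y (em (p (τ i))) := by
      unfold al Pool.Agent.N662.FP.em
      simp only [Prod.fst_sub, Prod.snd_sub]
      push_cast
      ring
    rw [e]
    push_cast at h1
    linarith
  · rw [add_sub_cancel]
    exact hlt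

end Run7.h921.FP
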